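import Pool.Agent.Helper53.OS.Defs

/-!
# One sequence of smooth moduli spaces of planar configurations
-/

set_option autoImplicit false

open CategoryTheory CategoryTheory.Limits AlgebraicGeometry Pool.Agent.Y116.UV Pool.Agent.Q193.LT
  Pool.Agent.Q282.UK Pool.Agent.Z125.UN Pool.Agent.Helper3.GU Pool.Agent.Helper13.RM
  Pool.Agent.Helper10.PC

universe v u

namespace Pool.Agent.Helper53.OS

variable {k : Type} [Field k]

/-- For some integral affine scheme, all the objects `H i X` are in `T U` for all smooth integral `U` which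
dominate it, for all families with the properties `IsRule`. -/
def Uni (Fine : Sch k → Prop) (X : Sch k) : Prop :=
  ∃ (C : Type) (_ : CommRing C) (_ : Algebra k C), IsDomain C ∧ Algebra.FiniteType k C ∧
    ∀ {A : Type u} [Category.{v} A] [Abelian A] {ι : Type} {H : ι → Sch k → A}
      {T : Sch k → A → Prop}, IsRule Fine H T → ∀ U : Sch k, Dominates U (aff k C) → ∀ i, T U (H i X)

theorem cut_uni (Fine : Sch k → Prop) : Cut True (Uni.{v, u} Fine) where
  iso {X Y} hX e h := by
    obtain ⟨C, _, _, h1, h2, h3⟩ := h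
    refine ⟨C, inferInstance, inferInstance, h1, h2, fun {A} _ _ {ι H T} hR U hU i => ?_⟩
    exact (cut_serre (hR.half i) (hR.serre U)).iso hX e (h3 hR U hU i)
  empty X hX := by
    refine ⟨k, inferInstance, inferInstance, inferInstance, inferInstance,
      fun {A} _ _ {ι H T} hR U hU i => ?_⟩
    exact (cut_serre (hR.half i) (hR.serre U)).empty X hX
  total {Z X U} z u hX ht hZ hU := by
    obtain ⟨C, _, _, _, _, h3⟩ := hZ
    obtain ⟨C', _, _, _, _, h3'⟩ := hU
    obtain ⟨E, _, _, h1, h2, a, b, ha, hb⟩ := exists_common (k := k) C C'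
    refine ⟨E, inferInstance, inferInstance, h1, h2, fun {A} _ _ {ι H T} hR W hW i => ?_⟩
    exact (cut_serre (hR.half i) (hR.serre W)).total z u hX ht
      (h3 hR W (hW.trans (affMap a) (dominant_affMap a ha)) i)
      (h3' hR W (hW.trans (affMap b) (dominant_affMap b hb)) i)

theorem uni_all (hR : Presents ({0, 1} : Set k)) {Fine : Sch k → Prop} (hF : HasFine Fine)
    (X : Sch k) (hX : FT True X) : Uni.{v, u} Fine X := by
  refine of_pieces (cut_uni Fine) (fun B _ _ _ _ => ?_) X hX
  have hi : IsIntegral (aff k B).left := by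
    change IsIntegral (Spec (CommRingCat.of B))
    rw [affine_isIntegral_iff]
    infer_instance
  obtain ⟨V, j, h1, h2, h3, h4⟩ := hF (aff k B) (ft_aff True) hi
  refine ⟨V, j, h1, h2, ?_⟩
  have hV : IsIntegral V.left := isIntegral_of_isOpenImmersion j.left
  obtain ⟨n, M, s, g1, g2, g3, g4⟩ := exists_open_mod (sep := True) hR V h3
  refine ⟨ModR k M, inferInstance, inferInstance, isDomain_of_open s g3 g4, inferInstance,
    fun {A} _ _ {ι H T} hT U hU i => hT.dominant V h4 U (hU.trans s (dominant_open s g3 g4 hV)) i⟩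

/-- Each integral affine scheme of finite type is dominated by a smooth integral moduli space of planar
configurations. -/
theorem exists_dominating [PerfectField k] (hR : Presents ({0, 1} : Set k)) (C : Type) [CommRing C]
    [Algebra k C] [IsDomain C] [Algebra.FiniteType k C] :
    ∃ M : Mat, SmoothMod k ⊤ M.2 ∧ Dominates (modS k M.2) (aff k C) := by
  obtain ⟨w, hw, hs⟩ := generic_smooth_field (k := k) C
  have hdm : IsDomain (Localization.Away w) :=
    IsLocalization.isDomain_localization (powers_le_nonZeroDivisors_of_noZeroDivisors hw)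
  have hft : Algebra.FiniteType k (Localization.Away w) := ft_loc _ _
  let W : Sch k := aff k (Localization.Away w)
  have hi : IsIntegral W.left := by
    change IsIntegral (Spec (CommRingCat.of (Localization.Away w)))
    rw [affine_isIntegral_iff]
    exact hdm
  have hi' : IsIntegral (aff k C).left := by
    change IsIntegral (Spec (CommRingCat.of C))
    rw [affine_isIntegral_iff]
    infer_instance
  have hW : FT True W := ft_aff True
  let o : W ⟶ aff k C := affMap (IsScalarTower.toAlgHom k C (Localization.Away w))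
  have ho : IsOpenImmersion o.left :=
    Scheme.isOpenImmersion_SpecMap_localizationAway (R := .of C) w
  obtain ⟨n, M, s, g1, g2, g3, g4⟩ := exists_open_mod (sep := True) hR W hW
  have hdom := isDomain_of_open s g3 g4
  have hsm : Smooth (modS k M).hom := smooth_of_open s g3 (smooth_aff_iff.2 hs)
  have hMi : IsIntegral (modS k M).left := (affine_isIntegral_iff _).mpr hdom
  refine ⟨⟨n, M⟩, ⟨g1, g2, hdom, smooth_aff_iff.1 hsm, le_top⟩, ft_modT _, hsm, hMi, s ≫ o, ?_⟩
  have hso : IsOpenImmersion (s ≫ o).left := by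
    change IsOpenImmersion (s.left ≫ o.left)
    infer_instance
  exact dominant_open (s ≫ o) hso g4 hi'

/-- Finitely many schemes and matroids. -/
theorem uni_finite (hR : Presents ({0, 1} : Set k)) {Fine : Sch k → Prop} (hF : HasFine Fine)
    (e : ℕ → Mat) (m : ℕ) :
    ∃ (C : Type) (_ : CommRing C) (_ : Algebra k C), IsDomain C ∧ Algebra.FiniteType k C ∧
    (∀ U : Sch k, Dominates U (aff k C) → ∀ j < m, IsDomain (ModR k (e j).2) →
      Dominates U (modS k (e j).2)) ∧
    ∀ {A : Type u} [Category.{v} A] [Abelian A] {ι : Type} {H : ι → Sch k → A}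
      {T : Sch k → A → Prop}, IsRule Fine H T → ∀ U : Sch k, Dominates U (aff k C) →
        ∀ j < m, ∀ i, T U (H i (modS k (e j).2)) := by
  induction m with
  | zero => exact ⟨k, inferInstance, inferInstance, inferInstance, inferInstance,
      fun U hU j hj => absurd hj (Nat.not_lt_zero j),
      fun {A} _ _ {ι H T} hR U hU j hj => absurd hj (Nat.not_lt_zero j)⟩
  | succ m ih =>
    obtain ⟨C, _, _, _, _, h4, h3⟩ := ih
    obtain ⟨C', _, _, _, _, h3'⟩ := uni_all.{v, u} hR hF (modS k (e m).2) (ft_modT _)
    obtain ⟨E, _, _, _, _, a, b, ha, hb⟩ := exists_common (k := k) C C'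
    by_cases hdom : IsDomain (ModR k (e m).2)
    · obtain ⟨E', _, _, h1', h2', a', b', ha', hb'⟩ := exists_common (k := k) E (ModR k (e m).2)
      refine ⟨E', inferInstance, inferInstance, h1', h2', fun W hW j hj hd => ?_,
        fun {A} _ _ {ι H T} hT W hW j hj i => ?_⟩
      · rcases Nat.lt_succ_iff_lt_or_eq.mp hj with hj | rfl
        · exact h4 W ((hW.trans (affMap a') (dominant_affMap a' ha')).trans (affMap a)
            (dominant_affMap a ha)) j hj hd
        · exact hW.trans (affMap b') (dominant_affMap b' hb')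
      · have hW' := hW.trans (affMap a') (dominant_affMap a' ha')
        rcases Nat.lt_succ_iff_lt_or_eq.mp hj with hj | rfl
        · exact h3 hT W (hW'.trans (affMap a) (dominant_affMap a ha)) j hj i
        · exact h3' hT W (hW'.trans (affMap b) (dominant_affMap b hb)) i
    · refine ⟨E, inferInstance, inferInstance, inferInstance, inferInstance,
        fun W hW j hj hd => ?_, fun {A} _ _ {ι H T} hT W hW j hj i => ?_⟩
      · rcases Nat.lt_succ_iff_lt_or_eq.mp hj with hj | rfl
        · exact h4 W (hW.trans (affMap a) (dominant_affMap a ha)) j hj hd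
        · exact absurd hd hdom
      · rcases Nat.lt_succ_iff_lt_or_eq.mp hj with hj | rfl
        · exact h3 hT W (hW.trans (affMap a) (dominant_affMap a ha)) j hj i
        · exact h3' hT W (hW.trans (affMap b) (dominant_affMap b hb)) i

instance countable_mat : Countable Mat := by
  have h : ∀ n : ℕ, Countable (Matroid (Fin 4 ⊕ Fin n)) := by
    intro n
    have hf : Function.Injective fun M : Matroid (Fin 4 ⊕ Fin n) => (M.E, {B | M.IsBase B}) := by
      intro M N hMN
      simp only [Prod.mk.injEq] at hMN
      refine Matroid.ext_isBase hMN.1 fun B _ => ?_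
      have h1 := Set.ext_iff.mp hMN.2 B
      exact h1
    exact hf.countable
  infer_instance

/-- **One sequence of smooth moduli spaces of planar configurations.** -/
theorem exists_seq [PerfectField k] (hR : Presents ({0, 1} : Set k)) {Fine : Sch k → Prop}
    (hF : HasFine Fine) : ∃ M : ℕ → Mat, (∀ i, SmoothMod k ⊤ (M i).2) ∧
      (∀ X : Sch k, FT True X → IsIntegral X.left → ∃ i₀, ∀ i, i₀ ≤ i →
        Dominates (modS k (M i).2) X) ∧
      ∀ X : Sch k, FT True X → ∃ i₀, ∀ i, i₀ ≤ i →
        ∀ {A : Type u} [Category.{v} A] [Abelian A] {ι : Type} {H : ι → Sch k → A}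
          {T : Sch k → A → Prop}, IsRule Fine H T → ∀ a, T (modS k (M i).2) (H a X) := by
  have hne : Nonempty Mat := ⟨⟨0, Matroid.emptyOn _⟩⟩
  obtain ⟨e, he⟩ := exists_surjective_nat Mat
  have key : ∀ m : ℕ, ∃ M : Mat, SmoothMod k ⊤ M.2 ∧
      (∀ j < m, IsDomain (ModR k (e j).2) → Dominates (modS k M.2) (modS k (e j).2)) ∧
      ∀ {A : Type u} [Category.{v} A] [Abelian A] {ι : Type} {H : ι → Sch k → A}
        {T : Sch k → A → Prop}, IsRule Fine H T → ∀ j < m, ∀ i,
          T (modS k M.2) (H i (modS k (e j).2)) := by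
    intro m
    obtain ⟨C, _, _, _, _, h4, h⟩ := uni_finite.{v, u} hR hF e m
    obtain ⟨M, hM, hd⟩ := exists_dominating hR C
    exact ⟨M, hM, h4 _ hd, fun {A} _ _ {ι H T} hT j hj i => h hT _ hd j hj i⟩
  choose M hM h4 h using key
  choose f hf using he
  refine ⟨M, hM, fun X hX hi => ?_, fun X hX => ?_⟩
  · obtain ⟨n, N, s, g1, g2, g3, g4⟩ := exists_open_mod (sep := True) hR X hX
    have hdom := isDomain_of_open s g3 g4
    refine ⟨f ⟨n, N⟩ + 1, fun i hi' => ?_⟩
    have h5 := h4 i (f ⟨n, N⟩) (by omega)
    rw [hf ⟨n, N⟩] at h5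
    exact (h5 hdom).trans s (dominant_open s g3 g4 hi)
  · obtain ⟨L, -, hL⟩ := config_list (sep := True) hR X hX
    obtain ⟨b, hb⟩ : ∃ b : ℕ, ∀ N ∈ L, f N < b := by
      refine ⟨(L.map f).sum + 1, fun N hN => ?_⟩
      have : f N ≤ (L.map f).sum := List.le_sum_of_mem (List.mem_map_of_mem hN)
      omega
    refine ⟨b, fun i hi {A} _ _ {ι H T} hT a => ?_⟩
    refine hL (fun Y => T (modS k (M i).2) (H a Y)) (cut_serre (hT.half a) (hT.serre _))
      fun N hN => ?_
    have h1 := h i hT (f N) (lt_of_lt_of_le (hb N hN) hi) a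
    rw [hf N] at h1
    exact h1

end Pool.Agent.Helper53.OS
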