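import Pool.Agent.Helper10.PC.One
import Pool.Agent.Helper13.RM.CList

/-!
# One sequence of smooth moduli spaces of planar configurations: definitions
-/

set_option autoImplicit false

open CategoryTheory CategoryTheory.Limits AlgebraicGeometry Pool.Agent.Y116.UV Pool.Agent.Q193.LT
  Pool.Agent.Q282.UK Pool.Agent.Z125.UN Pool.Agent.Helper3.GU Pool.Agent.Helper13.RM
  Pool.Agent.Helper10.PC

universe v u

namespace Pool.Agent.Helper53.OS

variable {k : Type} [Field k]

/-- Every integral separated scheme of finite type over `k` has a nonempty open subscheme with the property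
`Fine`. -/
def HasFine (Fine : Sch k → Prop) : Prop :=
  ∀ X : Sch k, FT True X → IsIntegral X.left → ∃ (V : Sch k) (j : V ⟶ X),
    IsOpenImmersion j.left ∧ Nonempty V.left ∧ FT True V ∧ Fine V

/-- Objects `H i X` of an abelian category and Serre classes `T U` for the schemes `U`.

* `serre`: the `T U` are Serre classes;
* `half`: isomorphism invariance, `H i ∅ = 0`, and the exactness of `H i U → H i X → H i Z` for a closed
  subscheme `Z` of `X` and its complement `U`;
* `dominant`: if `V` is `Fine` and `U` is a smooth integral scheme of finite type with a dominant morphism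
  to `V`, then the objects `H i V` are in `T U`. -/
structure IsRule (Fine : Sch k → Prop) {A : Type u} [Category.{v} A] [Abelian A] {ι : Type}
    (H : ι → Sch k → A) (T : Sch k → A → Prop) : Prop where
  serre : ∀ U, IsSerre (T U)
  half : ∀ i, IsHalf (H i)
  dominant : ∀ V : Sch k, Fine V → ∀ U : Sch k, Dominates U V → ∀ i, T U (H i V)

end Pool.Agent.Helper53.OS
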